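import Pool.Agent.Helper34.BIC.Tutte

/-!
# Continuity of the connectivity under the removal of elements

`BIC.cont_roles`: if `κ_M(X,Y) ≥ a` and, after contracting `C` and deleting `D`, the connectivity is at
most `b` (`a ≤ b`), then for some `C' ⊆ C`, `D' ⊆ D` it lies between `a` and `b` in
`M ／ C' ＼ D'`.
-/

open Set
open scoped Matroid

namespace BIC

variable {α : Type*}

lemma KGe.mono_n {M : Matroid α} {X Y : Set α} {a b : ℕ} (hab : a ≤ b) (h : KGe M X Y b) :
    KGe M X Y a := fun A h1 h2 => (Nat.add_le_add_right hab _).trans (h A h1 h2)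

lemma rk_insert_le_one {M : Matroid α} [M.Finite] (e : α) (X : Set α) :
    rk M (insert e X) ≤ rk M X + 1 := by
  have := rk_union_le M (X := X) (Y := {e}) (finite_singleton e)
  rw [Set.ncard_singleton, union_singleton] at this
  exact this

lemma KGe.del {M : Matroid α} [M.Finite] {X Y : Set α} {e : α} (he : e ∈ M.E) {b : ℕ}
    (h : KGe M X Y (b + 1)) : KGe (M ＼ {e}) X Y b := by
  intro A h1 h2
  rw [Matroid.delete_ground] at h2 ⊢
  have hAE : A ⊆ M.E \ {e} := h2.trans sdiff_subset
  have heA : e ∉ A := fun h => (hAE h).2 rfl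
  rw [rk_delete (subset_refl _), rk_delete hAE, rk_delete sdiff_subset]
  have h3 := h A h1 (fun x hx => ⟨(hAE hx).1, (h2 hx).2⟩)
  have h4 : M.E \ A = insert e ((M.E \ {e}) \ A) := by
    ext x
    simp only [mem_insert_iff, mem_sdiff, mem_singleton_iff]
    constructor
    · rintro ⟨a, b⟩
      by_cases hx : x = e
      · exact Or.inl hx
      · exact Or.inr ⟨⟨a, hx⟩, b⟩
    · rintro (rfl | ⟨⟨a, b⟩, c⟩)
      · exact ⟨he, heA⟩
      · exact ⟨a, c⟩
  have h5 := rk_insert_le_one (M := M) e ((M.E \ {e}) \ A)
  rw [← h4] at h5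
  have h6 := rk_mono M (show M.E \ {e} ⊆ M.E from sdiff_subset)
  omega

lemma KGe.con {M : Matroid α} [M.Finite] {X Y : Set α} {e : α} (he : e ∈ M.E) {b : ℕ}
    (h : KGe M X Y (b + 1)) : KGe (M ／ {e}) X Y b := by
  by_cases hne : M.IsNonloop e
  · intro A h1 h2
    rw [Matroid.contract_ground] at h2 ⊢
    have hAE : A ⊆ M.E \ {e} := h2.trans sdiff_subset
    have heA : e ∉ A := fun h => (hAE h).2 rfl
    have r1 := rk_contract hne (subset_refl (M.E \ {e}))
    have r2 := rk_contract hne hAE
    have r3 := rk_contract hne (X := (M.E \ {e}) \ A) sdiff_subset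
    have h4 : insert e ((M.E \ {e}) \ A) = M.E \ A := by
      ext x
      simp only [mem_insert_iff, mem_sdiff, mem_singleton_iff]
      constructor
      · rintro (rfl | ⟨⟨a, b⟩, c⟩)
        · exact ⟨he, heA⟩
        · exact ⟨a, c⟩
      · rintro ⟨a, b⟩
        by_cases hx : x = e
        · exact Or.inl hx
        · exact Or.inr ⟨⟨a, hx⟩, b⟩
    have h5 : insert e (M.E \ {e}) = M.E := by
      rw [insert_sdiff_singleton, insert_eq_of_mem he]
    rw [h5] at r1
    rw [h4] at r3
    have h3 := h A h1 (fun x hx => ⟨(hAE hx).1, (h2 hx).2⟩)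
    have h6 := rk_mono M (subset_insert e A)
    omega
  · have hl : e ∈ M.closure ∅ := by
      by_contra hl
      exact hne ⟨hl, he⟩
    have h3 : M ／ {e} = M ＼ {e} := by
      refine Matroid.contract_eq_delete_of_subset_loops ?_
      rw [singleton_subset_iff]
      exact hl
    rw [h3]
    exact h.del he

lemma minor_insert_C {M : Matroid α} {C D : Set α} {e : α} (heD : e ∉ D) :
    M ／ (insert e C) ＼ D = (M ／ C ＼ D) ／ {e} := by
  have h2 : insert e C = C ∪ {e} := by rw [union_comm]; rfl
  rw [h2, ← Matroid.contract_contract, Matroid.contract_delete_comm _ (by simpa using heD)]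

lemma minor_insert_D {M : Matroid α} {C D : Set α} {e : α} :
    M ／ C ＼ (insert e D) = (M ／ C ＼ D) ＼ {e} := by
  have h2 : insert e D = D ∪ {e} := by rw [union_comm]; rfl
  rw [h2, ← Matroid.delete_delete]

/-- **Continuity.** -/
theorem cont_roles {M : Matroid α} [M.Finite] {X Y C D : Set α} (hC : C ⊆ M.E) (hD : D ⊆ M.E)
    (hCD : Disjoint C D) {a b : ℕ} (hab : a ≤ b) (h0 : KGe M X Y a)
    (h1 : ¬ KGe (M ／ C ＼ D) X Y (b + 1)) :
    ∃ C' ⊆ C, ∃ D' ⊆ D, KGe (M ／ C' ＼ D') X Y a ∧ ¬ KGe (M ／ C' ＼ D') X Y (b + 1) := by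
  classical
  by_contra hcon
  push Not at hcon
  -- every partial removal keeps `κ ≥ b + 1`
  have key : ∀ n : ℕ, ∀ C' ⊆ C, ∀ D' ⊆ D, (C' ∪ D').ncard = n → KGe (M ／ C' ＼ D') X Y (b + 1) := by
    intro n
    induction n with
    | zero =>
      intro C' hC' D' hD' h
      have hfin : (C' ∪ D').Finite :=
        M.ground_finite.subset (union_subset (hC'.trans hC) (hD'.trans hD))
      rw [Set.ncard_eq_zero hfin, union_empty_iff] at h
      refine hcon C' hC' D' hD' ?_
      rw [h.1, h.2, Matroid.contract_empty, Matroid.delete_empty]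
      exact h0
    | succ n ih =>
      intro C' hC' D' hD' h
      have hfin : (C' ∪ D').Finite :=
        M.ground_finite.subset (union_subset (hC'.trans hC) (hD'.trans hD))
      have hne : (C' ∪ D').Nonempty := by
        rw [← Set.ncard_pos hfin]; omega
      refine hcon C' hC' D' hD' ?_
      refine KGe.mono_n hab ?_
      obtain ⟨e, he⟩ := hne
      rcases he with he | he
      · -- contraction
        have heD : e ∉ D' := fun h' => Set.disjoint_left.1 hCD (hC' he) (hD' h')
        have e1 : C' = insert e (C' \ {e}) := by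
          rw [insert_sdiff_singleton, insert_eq_of_mem he]
        have e2 : (C' \ {e} ∪ D').ncard = n := by
          have : C' \ {e} ∪ D' = (C' ∪ D') \ {e} := by
            ext x
            simp only [mem_union, mem_sdiff, mem_singleton_iff]
            constructor
            · rintro (⟨p, q⟩ | p)
              · exact ⟨Or.inl p, q⟩
              · exact ⟨Or.inr p, fun h => heD (h ▸ p)⟩
            · rintro ⟨p | p, q⟩
              · exact Or.inl ⟨p, q⟩
              · exact Or.inr p
          rw [this, Set.ncard_sdiff_singleton_of_mem (show e ∈ C' ∪ D' from Or.inl he), h]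
          omega
        have h2 := ih (C' \ {e}) (sdiff_subset.trans hC') D' hD' e2
        rw [e1, minor_insert_C heD]
        have hf : (M ／ (C' \ {e}) ＼ D').Finite :=
          ⟨M.ground_finite.subset (sdiff_subset.trans sdiff_subset)⟩
        refine KGe.con ?_ h2
        rw [Matroid.delete_ground, Matroid.contract_ground]
        exact ⟨⟨hC (hC' he), fun h => h.2 rfl⟩, heD⟩
      · -- deletion
        have heC : e ∉ C' := fun h' => Set.disjoint_left.1 hCD (hC' h') (hD' he)
        have e1 : D' = insert e (D' \ {e}) := by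
          rw [insert_sdiff_singleton, insert_eq_of_mem he]
        have e2 : (C' ∪ D' \ {e}).ncard = n := by
          have : C' ∪ D' \ {e} = (C' ∪ D') \ {e} := by
            ext x
            simp only [mem_union, mem_sdiff, mem_singleton_iff]
            constructor
            · rintro (p | ⟨p, q⟩)
              · exact ⟨Or.inl p, fun h => heC (h ▸ p)⟩
              · exact ⟨Or.inr p, q⟩
            · rintro ⟨p | p, q⟩
              · exact Or.inl p
              · exact Or.inr ⟨p, q⟩
          rw [this, Set.ncard_sdiff_singleton_of_mem (show e ∈ C' ∪ D' from Or.inr he), h]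
          omega
        have h2 := ih C' hC' (D' \ {e}) (sdiff_subset.trans hD') e2
        rw [e1, minor_insert_D]
        have hf : (M ／ C' ＼ (D' \ {e})).Finite :=
          ⟨M.ground_finite.subset (sdiff_subset.trans sdiff_subset)⟩
        refine KGe.del ?_ h2
        rw [Matroid.delete_ground, Matroid.contract_ground]
        exact ⟨⟨hD (hD' he), heC⟩, fun h => h.2 rfl⟩
  exact h1 (key _ C (subset_refl _) D (subset_refl _) rfl)

end BIC
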