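import Pool.Agent.BICS.Base
import Pool.Agent.BICS.PGrid
import Pool.Agent.Helper11.EXT.Cont

/-!
# Removing elements does not change the two displayed minors
-/

open Set
open scoped Matroid

namespace BIC

variable {α V : Type*}

/-- `M ／ C'' ＼ D''` still shows `(M ／ C₁) | X`: here `D''` avoids `C₁ ∪ X`, and the elements of
`C'' \ C₁` are elements of the bicircular matroid `(M ／ C₁) | S` that are vertex-disjoint
from `X`. -/
theorem inv_rank {M : Matroid α} [M.Finite] {S : Set α} {ends : α → Sym2 V}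
    {C₁ C' D' X : Set α} {V₁ V₂ : Set V} (hC₁ : C₁ ⊆ M.E) (hC' : C' ⊆ M.E)
    (hC1D : Disjoint C₁ D') (hXC : Disjoint X C') (hXD : Disjoint X D')
    (hB : Bic (M ／ C₁) S ends) (hX : X ⊆ ins S ends V₁) (hG : C' \ C₁ ⊆ ins S ends V₂)
    (hV : Disjoint V₁ V₂) {A : Set α} (hA : A ⊆ X) :
    rk (M ／ C' ＼ D' ／ (C₁ \ C')) A = rk (M ／ C₁) A := by
  have hf1 : (M ／ C' ＼ D').Finite := ⟨M.ground_finite.subset (sdiff_subset.trans sdiff_subset)⟩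
  have hf2 : (M ／ C₁).Finite := ⟨M.ground_finite.subset sdiff_subset⟩
  have hAE : A ⊆ M.E \ C₁ := fun e he => hB.sub (hX (hA he)).1
  have hGE : C' \ C₁ ⊆ M.E \ C₁ := fun e he => ⟨hC' he.1, he.2⟩
  have nAC : ∀ e ∈ A, e ∉ C' := fun e he h => Set.disjoint_left.1 hXC (hA he) h
  have nAD : ∀ e ∈ A, e ∉ D' := fun e he h => Set.disjoint_left.1 hXD (hA he) h
  have nCD : ∀ e ∈ C₁, e ∉ D' := fun e he h => Set.disjoint_left.1 hC1D he h
  have e1 : rk (M ／ C' ＼ D' ／ (C₁ \ C')) A + rk (M ／ C' ＼ D') (C₁ \ C') =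
      rk (M ／ C' ＼ D') (A ∪ (C₁ \ C')) := by
    refine BICS.rk_contract_set (fun e he => ⟨⟨hC₁ he.1, he.2⟩, nCD e he.1⟩) ?_
    intro e he
    exact ⟨⟨⟨(hAE he).1, nAC e he⟩, nAD e he⟩, fun h => (hAE he).2 h.1⟩
  have e2 : rk (M ／ C' ＼ D') (C₁ \ C') + rk M C' = rk M ((C₁ \ C') ∪ C') := by
    refine BICS.rk_minor hC' ?_
    intro e he
    exact ⟨hC₁ he.1, fun h => h.elim he.2 (nCD e he.1)⟩
  have e3 : rk (M ／ C' ＼ D') (A ∪ (C₁ \ C')) + rk M C' = rk M (A ∪ (C₁ \ C') ∪ C') := by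
    refine BICS.rk_minor hC' ?_
    rintro e (he | he)
    · exact ⟨(hAE he).1, fun h => h.elim (nAC e he) (nAD e he)⟩
    · exact ⟨hC₁ he.1, fun h => h.elim he.2 (nCD e he.1)⟩
  have e4 : rk (M ／ C₁) (C' \ C₁) + rk M C₁ = rk M ((C' \ C₁) ∪ C₁) :=
    BICS.rk_contract_set hC₁ hGE
  have e5 : rk (M ／ C₁) (A ∪ (C' \ C₁)) + rk M C₁ = rk M (A ∪ (C' \ C₁) ∪ C₁) :=
    BICS.rk_contract_set hC₁ (union_subset hAE hGE)
  have e6 : rk (M ／ C₁) (A ∪ (C' \ C₁)) = rk (M ／ C₁) A + rk (M ／ C₁) (C' \ C₁) :=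
    BICS.rk_skew hB hV (hA.trans hX) hG
  have s1 : (C₁ \ C') ∪ C' = (C' \ C₁) ∪ C₁ := by
    ext x; simp only [mem_union, mem_sdiff]; tauto
  have s2 : A ∪ (C₁ \ C') ∪ C' = A ∪ (C' \ C₁) ∪ C₁ := by
    ext x; simp only [mem_union, mem_sdiff]; tauto
  rw [s1] at e2
  rw [s2] at e3
  omega

/-- transfer of the whole bicircular structure on `X` -/
theorem inv_bic {M : Matroid α} [M.Finite] {S : Set α} {ends : α → Sym2 V}
    {C₁ C' D' X : Set α} {V₁ V₂ : Set V} (hC₁ : C₁ ⊆ M.E) (hC' : C' ⊆ M.E)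
    (hC1D : Disjoint C₁ D') (hXC : Disjoint X C') (hXD : Disjoint X D')
    (hB : Bic (M ／ C₁) S ends) (hX : X ⊆ ins S ends V₁) (hG : C' \ C₁ ⊆ ins S ends V₂)
    (hV : Disjoint V₁ V₂) : Bic (M ／ C' ＼ D' ／ (C₁ \ C')) X ends := by
  have hf1 : (M ／ C' ＼ D' ／ (C₁ \ C')).Finite :=
    ⟨M.ground_finite.subset (sdiff_subset.trans (sdiff_subset.trans sdiff_subset))⟩
  have hf2 : (M ／ C₁).Finite := ⟨M.ground_finite.subset sdiff_subset⟩
  have hXS : X ⊆ S := fun e he => (hX he).1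
  refine BICS.Bic_of_rk (BICS.Bic_sub hB hXS) ?_ ?_
  · intro e he
    have hE : e ∈ M.E \ C₁ := hB.sub (hXS he)
    exact ⟨⟨⟨hE.1, fun h => Set.disjoint_left.1 hXC he h⟩,
      fun h => Set.disjoint_left.1 hXD he h⟩, fun h => hE.2 h.1⟩
  · intro A hA
    exact inv_rank hC₁ hC' hC1D hXC hXD hB hX hG hV hA

end BIC
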