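import Pool.Agent.Helper11.EXT.Show

/-!
# The lower bound `κ_M(X, Y)` for two squares
-/

open Set
open scoped Matroid

namespace BIC

universe u

variable {α : Type u}

/-- connectivity does not grow in minors -/
lemma lam_minor_le {M : Matroid α} [M.Finite] {C D A : Set α} (hC : C ⊆ M.E)
    (hCD : Disjoint C D) (hA : A ⊆ M.E) {j : ℕ} (h : rk M A + rk M (M.E \ A) ≤ rk M M.E + j) :
    rk (M ／ C ＼ D) (A ∩ (M ／ C ＼ D).E) + rk (M ／ C ＼ D) ((M ／ C ＼ D).E \ A) ≤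
      rk (M ／ C ＼ D) (M ／ C ＼ D).E + j := by
  have hE : (M ／ C ＼ D).E = (M.E \ C) \ D := rfl
  have f : ∀ Z ⊆ (M.E \ C) \ D, rk (M ／ C ＼ D) Z + rk M C = rk M (Z ∪ C) := by
    intro Z hZ
    refine BICS.rk_minor hC (fun e he => ⟨(hZ he).1.1, ?_⟩)
    exact fun h => h.elim (hZ he).1.2 (hZ he).2
  have f1 := f (A ∩ ((M.E \ C) \ D)) inter_subset_right
  have f2 := f (((M.E \ C) \ D) \ A) sdiff_subset
  have f3 := f ((M.E \ C) \ D) (subset_refl _)
  rw [hE]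
  -- split by `D`
  have nD : ∀ e ∈ C, e ∉ D := fun e he h => Set.disjoint_left.1 hCD he h
  -- A' := A \ D, B' := (E \ A) \ D
  have g0 : rk M (A \ D) + rk M ((M.E \ A) \ D) ≤ rk M (M.E \ D) + j := by
    have s1 := rk_submod M A (M.E \ D)
    have s2 := rk_submod M (M.E \ A) (A ∪ (M.E \ D))
    have t1 : A ∩ (M.E \ D) = A \ D := by
      ext x; simp only [mem_inter_iff, mem_sdiff]
      constructor
      · rintro ⟨p, q, r⟩; exact ⟨p, r⟩
      · rintro ⟨p, r⟩; exact ⟨p, hA p, r⟩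
    have t2 : (M.E \ A) ∩ (A ∪ (M.E \ D)) = (M.E \ A) \ D := by
      ext x; simp only [mem_inter_iff, mem_sdiff, mem_union]; tauto
    have t3 : (M.E \ A) ∪ (A ∪ (M.E \ D)) = M.E := by
      ext x; simp only [mem_union, mem_sdiff]
      constructor
      · rintro (h | h | h)
        · exact h.1
        · exact hA h
        · exact h.1
      · intro h
        by_cases hx : x ∈ A
        · exact Or.inr (Or.inl hx)
        · exact Or.inl ⟨h, hx⟩
    rw [t1] at s1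
    rw [t2, t3] at s2
    omega
  have g1 := rk_submod M (A \ D) C
  have g2 := rk_submod M ((M.E \ A) \ D) C
  have g3 := rk_submod M ((A \ D) ∩ C) (((M.E \ A) \ D) ∩ C)
  have u1 : (A ∩ ((M.E \ C) \ D)) ∪ C = (A \ D) ∪ C := by
    ext x; simp only [mem_union, mem_inter_iff, mem_sdiff]
    constructor
    · rintro (⟨p, q⟩ | p)
      · exact Or.inl ⟨p, q.2⟩
      · exact Or.inr p
    · rintro (⟨p, q⟩ | p)
      · by_cases hx : x ∈ C
        · exact Or.inr hx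
        · exact Or.inl ⟨p, ⟨hA p, hx⟩, q⟩
      · exact Or.inr p
  have u2 : (((M.E \ C) \ D) \ A) ∪ C = ((M.E \ A) \ D) ∪ C := by
    ext x; simp only [mem_union, mem_sdiff]; tauto
  have u3 : ((M.E \ C) \ D) ∪ C = M.E \ D := by
    ext x; simp only [mem_union, mem_sdiff]
    constructor
    · rintro (⟨⟨p, q⟩, r⟩ | p)
      · exact ⟨p, r⟩
      · exact ⟨hC p, nD x p⟩
    · rintro ⟨p, r⟩
      by_cases hx : x ∈ C
      · exact Or.inr hx
      · exact Or.inl ⟨⟨p, hx⟩, r⟩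
  have u4 : ((A \ D) ∩ C) ∪ (((M.E \ A) \ D) ∩ C) = C := by
    ext x; simp only [mem_union, mem_sdiff, mem_inter_iff]
    constructor
    · rintro (h | h)
      · exact h.2
      · exact h.2
    · intro h
      by_cases hx : x ∈ A
      · exact Or.inl ⟨⟨hx, nD x h⟩, h⟩
      · exact Or.inr ⟨⟨⟨hC h, hx⟩, nD x h⟩, h⟩
  rw [u1] at f1
  rw [u2] at f2
  rw [u3] at f3
  rw [u4] at g3
  omega

/-- `isoStar` of the stub -/
theorem isoStar : ∃ g s₀ : ℕ → ℕ, ∀ (j : ℕ) {α : Type u} (N : Matroid α) [N.Finite] (S T : Set α)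
    (ends : α → Sym2 (ℕ × ℕ)) (n a b s : ℕ) (A : Set α), 2 ≤ n →
    S ∪ T = N.E → Disjoint S T → Bic N S ends → BICS.Grd S ends 0 0 n n → N.Indep T →
    rk N N.E ≤ n * n + 1 → A ⊆ N.E → s₀ j ≤ s → BICS.rect a b s s ⊆ BICS.rect 0 0 n n →
    BICS.blk S ends a b s ⊆ A → rk N A + rk N (N.E \ A) ≤ rk N N.E + j → (N.E \ A).ncard ≤ g j :=
  BICS.isoStar_of (fun hB hG ha hb => BICS.rk_rect hB hG ha hb) BICS.iso

/-- Squares are as well linked as the minors they belong to. -/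
theorem kge_squares : ∃ g s₀ : ℕ → ℕ, ∀ (j : ℕ) {α : Type u} (M : Matroid α) [M.Finite]
    (C₁ D₁ C₂ D₂ : Set α) (n a₁ b₁ s₁ a₂ b₂ s₂ : ℕ)
    (e₁ e₂ : α → Sym2 (Option (Fin n × Fin n))), C₁ ⊆ M.E → Disjoint C₁ D₁ → D₂ ⊆ M.E →
    Disjoint C₂ D₂ → 2 ≤ n → s₀ j ≤ s₁ → s₀ j ≤ s₂ → a₁ + s₁ ≤ n → b₁ + s₁ ≤ n → a₂ + s₂ ≤ n →
    b₂ + s₂ ≤ n → Shows (M ／ C₁ ＼ D₁) (GPlus n) e₁ → Shows (M ／ C₂ ＼ D₂)✶ (GPlus n) e₂ →
    Disjoint (M ／ C₁ ＼ D₁).E (M ／ C₂ ＼ D₂).E →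
    KGe M (M ／ C₁ ＼ D₁).E (M ／ C₂ ＼ D₂).E (j + 2 * g j + 1) →
    KGe M (ins (M ／ C₁ ＼ D₁).E e₁ (sq n a₁ b₁ s₁)) (ins (M ／ C₂ ＼ D₂).E e₂ (sq n a₂ b₂ s₂))
      (j + 1) := by
  classical
  obtain ⟨g, s₀, H⟩ := isoStar.{u}
  refine ⟨g, s₀, ?_⟩
  intro j α M _ C₁ D₁ C₂ D₂ n a₁ b₁ s₁ a₂ b₂ s₂ e₁ e₂ hC₁ h1 hD₂ h2 hn hs₁ hs₂ ha₁ hb₁ ha₂ hb₂
    sh₁ sh₂ hdis hK A hXA hAY
  by_contra hcon
  push Not at hcon
  have hAE : A ⊆ M.E := hAY.trans sdiff_subset
  have hj : rk M A + rk M (M.E \ A) ≤ rk M M.E + j := by omega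
  set N₁ := M ／ C₁ ＼ D₁ with hN₁
  set N₂ := M ／ C₂ ＼ D₂ with hN₂
  have hf1 : N₁.Finite := ⟨M.ground_finite.subset (sdiff_subset.trans sdiff_subset)⟩
  have hf2 : N₂.Finite := ⟨M.ground_finite.subset (sdiff_subset.trans sdiff_subset)⟩
  have hrec : ∀ {a b s : ℕ}, a + s ≤ n → b + s ≤ n → BICS.rect a b s s ⊆ BICS.rect 0 0 n n :=
    fun ha hb => BICS.rect_sub (Nat.zero_le _) (by omega) (Nat.zero_le _) (by omega)
  -- side 1
  have k1 : (N₁.E \ A).ncard ≤ g j := by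
    have h3 := lam_minor_le (D := D₁) hC₁ h1 hAE hj
    have h4 := H j N₁ (plain N₁ e₁) (star N₁ e₁) (cends e₁) n a₁ b₁ s₁ (A ∩ N₁.E) hn
      plain_union_star disj_plain_star sh₁.bic_plain sh₁.grd_plain sh₁.indep_star sh₁.rk_le
      inter_subset_right hs₁ (hrec ha₁ hb₁) ?_ ?_
    · have : N₁.E \ (A ∩ N₁.E) = N₁.E \ A := by
        ext x; simp only [mem_sdiff, mem_inter_iff]; tauto
      rwa [this] at h4
    · rw [blk_eq ha₁]
      exact subset_inter hXA (fun e he => he.1)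
    · have : N₁.E \ (A ∩ N₁.E) = N₁.E \ A := by
        ext x; simp only [mem_sdiff, mem_inter_iff]; tauto
      rw [this]
      exact h3
  -- side 2, in the dual
  have hfd : N₂✶.Finite := ⟨by rw [Matroid.dual_ground]; exact hf2.ground_finite⟩
  have k2 : (N₂.E ∩ A).ncard ≤ g j := by
    have hdE : M✶.E = M.E := rfl
    have hd : rk M✶ (M.E \ A) + rk M✶ (M✶.E \ (M.E \ A)) ≤ rk M✶ M✶.E + j := by
      have r1 := rk_dual (M := M) (X := M.E \ A) sdiff_subset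
      have r2 := rk_dual hAE
      have r3 := rk_dual (M := M) (X := M.E) (subset_refl _)
      have r4 := Set.ncard_sdiff_add_ncard_of_subset hAE M.ground_finite
      have r6 : rk M (M.E \ M.E) = 0 := by
        rw [sdiff_self]
        have : rk M (∅ : Set α) ≤ (∅ : Set α).ncard := rk_le_ncard M finite_empty
        simpa using this
      rw [sdiff_sdiff_cancel_left hAE] at r1
      rw [hdE, sdiff_sdiff_cancel_left hAE]
      omega
    have hdual : N₂✶ = M✶ ／ D₂ ＼ C₂ := by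
      rw [hN₂, Matroid.dual_delete, Matroid.dual_contract,
        Matroid.contract_delete_comm _ h2.symm]
    have h3 := lam_minor_le (M := M✶) (C := D₂) (D := C₂) (A := M.E \ A) hD₂ h2.symm
      sdiff_subset hd
    rw [← hdual] at h3
    have hN₂E : N₂✶.E = N₂.E := rfl
    have h4 := H j N₂✶ (plain N₂✶ e₂) (star N₂✶ e₂) (cends e₂) n a₂ b₂ s₂ ((M.E \ A) ∩ N₂✶.E) hn
      plain_union_star disj_plain_star sh₂.bic_plain sh₂.grd_plain sh₂.indep_star sh₂.rk_le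
      inter_subset_right hs₂ (hrec ha₂ hb₂) ?_ ?_
    · have e : N₂✶.E \ ((M.E \ A) ∩ N₂✶.E) = N₂.E ∩ A := by
        rw [hN₂E]
        ext x
        simp only [mem_sdiff, mem_inter_iff]
        constructor
        · rintro ⟨p, q⟩
          refine ⟨p, ?_⟩
          by_contra hx
          exact q ⟨⟨p.1.1, hx⟩, p⟩
        · rintro ⟨p, q⟩
          exact ⟨p, fun h => h.1.2 q⟩
      rwa [e] at h4
    · rw [blk_eq ha₂]
      refine subset_inter ?_ (fun e he => he.1)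
      intro e he
      have heE : e ∈ M.E := he.1.1.1
      exact ⟨heE, fun h => (hAY h).2 he⟩
    · have : N₂✶.E \ ((M.E \ A) ∩ N₂✶.E) = N₂✶.E \ (M.E \ A) := by
        ext x; simp only [mem_sdiff, mem_inter_iff]; tauto
      rw [this]
      exact h3
  -- move both small sets
  have n12 : ∀ e ∈ N₁.E, e ∉ N₂.E := fun e he h => Set.disjoint_left.1 hdis he h
  have h5 := hK ((A ∪ N₁.E) \ N₂.E) (fun e he => ⟨Or.inr he, n12 e he⟩) (by
    rintro e ⟨he | he, he'⟩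
    · exact ⟨hAE he, he'⟩
    · exact ⟨he.1.1, he'⟩)
  have h6 : rk M ((A ∪ N₁.E) \ N₂.E) ≤ rk M A + g j := by
    have h7 : (A ∪ N₁.E) \ N₂.E ⊆ A ∪ (N₁.E \ A) := by
      rintro e ⟨he | he, _⟩
      · exact Or.inl he
      · by_cases hx : e ∈ A
        · exact Or.inl hx
        · exact Or.inr ⟨he, hx⟩
    have h8 := rk_union_le M (X := A) (Y := N₁.E \ A) (hf1.ground_finite.subset sdiff_subset)
    have h9 := rk_mono M h7
    omega
  have h10 : rk M (M.E \ ((A ∪ N₁.E) \ N₂.E)) ≤ rk M (M.E \ A) + g j := by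
    have h7 : M.E \ ((A ∪ N₁.E) \ N₂.E) ⊆ (M.E \ A) ∪ (N₂.E ∩ A) := by
      rintro e ⟨he, he'⟩
      by_cases hx : e ∈ A
      · refine Or.inr ⟨?_, hx⟩
        by_contra hy
        exact he' ⟨Or.inl hx, hy⟩
      · exact Or.inl ⟨he, hx⟩
    have h8 := rk_union_le M (X := M.E \ A) (Y := N₂.E ∩ A)
      (hf2.ground_finite.subset inter_subset_left)
    have h9 := rk_mono M h7
    omega
  omega

end BIC
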