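import Pool.Agent.BICS.PGrid
import Pool.Agent.BICS.Conv
import Pool.Agent.BICS.IsoStar
import Pool.Agent.BICS.Iso
import Pool.Agent.BICS.RkRect
import Pool.Agent.Helper34.BIC.ToBic

/-!
# Matroids displayed as the bicircular matroid of `G_n^+`, squares of the grid
-/

open Set
open scoped Matroid

namespace BIC

variable {α V : Type*}

/-- The map `ends` (element ↦ edge) exhibits `N` as the bicircular matroid `B(G)`. -/
def Shows (N : Matroid α) (G : SimpleGraph V) (ends : α → Sym2 V) : Prop :=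
  BijOn ends N.E G.edgeSet ∧ ∀ F ⊆ N.E, (N.Indep F ↔ BicIndep (ends '' F))

/-- The vertices of the `s × s` square with corner `(a, b)` in `G_n^+`. -/
def sq (n a b s : ℕ) : Set (Option (Fin n × Fin n)) :=
  {v | ∃ i j : Fin n, v = some (i, j) ∧ a ≤ i.val ∧ i.val < a + s ∧ b ≤ j.val ∧ j.val < b + s}

lemma Shows.bic [Finite V] {N : Matroid α} {G : SimpleGraph V} {ends : α → Sym2 V}
    (h : Shows N G ends) : Bic N N.E ends := by
  classical
  obtain ⟨hbij, hI⟩ := h
  refine ⟨subset_refl _, ?_, ?_⟩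
  · intro F φ hF hφ hφe
    rcases F.eq_empty_or_nonempty with rfl | ⟨e₀, he₀⟩
    · exact N.empty_indep
    have : Nonempty α := ⟨e₀⟩
    have hinv : ∀ e ∈ F, Function.invFunOn ends N.E (ends e) = e := fun e he =>
      hbij.injOn.leftInvOn_invFunOn (hF he)
    refine (hI F hF).2 (BicIndep.of_inj (fun x => φ (Function.invFunOn ends N.E x)) ?_ ?_)
    · rintro _ ⟨a, ha, rfl⟩ _ ⟨b, hb, rfl⟩ hab
      simp only at hab
      rw [hinv a ha, hinv b hb] at hab
      rw [hφ ha hb hab]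
    · rintro _ ⟨a, ha, rfl⟩
      rw [hinv a ha]
      exact hφe a ha
  · intro W
    rw [Matroid.eRk_le_iff]
    intro I hIW hI'
    have hIS : I ⊆ N.E := fun a ha => (hIW ha).1
    have h2 := (hI I hIS).1 hI'
    have h3 := h2.ncard_le (W := W) (by
      rintro _ ⟨a, ha, rfl⟩ hd
      exact G.not_isDiag_of_mem_edgeSet (hbij.mapsTo (hIS ha)) hd) (by
      rintro _ ⟨a, ha, rfl⟩ v hv
      exact (hIW ha).2 v hv)
    have hinj : InjOn ends I := hbij.injOn.mono hIS
    have hIf : I.Finite := Set.Finite.of_finite_image (Set.toFinite (ends '' I)) hinj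
    rw [hinj.ncard_image] at h3
    rw [← hIf.cast_ncard_eq, ← (Set.toFinite W).cast_ncard_eq]
    exact_mod_cast h3

/-- the elements of `N` that are grid edges -/
def plain (N : Matroid α) {n : ℕ} (ends : α → Sym2 (Option (Fin n × Fin n))) : Set α :=
  {e | e ∈ N.E ∧ none ∉ ends e}

/-- the elements of `N` at the apex -/
def star (N : Matroid α) {n : ℕ} (ends : α → Sym2 (Option (Fin n × Fin n))) : Set α :=
  {e | e ∈ N.E ∧ none ∈ ends e}

/-- the ends in coordinates -/
def cends {n : ℕ} (ends : α → Sym2 (Option (Fin n × Fin n))) (e : α) : Sym2 (ℕ × ℕ) :=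
  (ends e).map (BICS.coord n)

section gplus

variable {n : ℕ} {N : Matroid α} {ends : α → Sym2 (Option (Fin n × Fin n))}

lemma plain_union_star : plain N ends ∪ star N ends = N.E := by
  ext e
  simp only [plain, star, mem_union, mem_ofPred_eq]
  tauto

lemma disj_plain_star : Disjoint (plain N ends) (star N ends) := by
  rw [Set.disjoint_left]
  rintro e ⟨_, h2⟩ ⟨_, h3⟩
  exact h2 h3

lemma Shows.bic_plain (h : Shows N (GPlus n) ends) : Bic N (plain N ends) (cends ends) := by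
  have hB := h.bic
  refine ⟨fun e he => he.1, ?_, ?_⟩
  · intro F ψ hF hψ hψe
    have h2 : ∀ e ∈ F, ∃ v ∈ ends e, BICS.coord n v = ψ e := by
      intro e he
      exact Sym2.mem_map.1 (hψe e he)
    choose! ρ hρ1 hρ2 using h2
    refine hB.ind F ρ (fun e he => (hF he).1) ?_ hρ1
    intro e he e' he' hee
    apply hψ he he'
    rw [← hρ2 e he, ← hρ2 e' he', hee]
  · intro W
    have h2 : ins (plain N ends) (cends ends) W ⊆ ins N.E ends (BICS.coord n ⁻¹' W) := by
      rintro e ⟨he, hW⟩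
      refine ⟨he.1, fun v hv => ?_⟩
      exact hW _ (Sym2.mem_map.2 ⟨v, hv, rfl⟩)
    refine (N.eRk_mono h2).trans ((hB.rk _).trans ?_)
    have h3 : BICS.coord n '' (BICS.coord n ⁻¹' W) ⊆ W := image_preimage_subset _ _
    have h4 := Set.encard_le_encard h3
    rwa [(BICS.coord_inj n).encard_image] at h4

lemma Shows.grd_plain (h : Shows N (GPlus n) ends) :
    BICS.Grd (plain N ends) (cends ends) 0 0 n n := by
  obtain ⟨hbij, -⟩ := h
  refine ⟨?_, ?_, ?_⟩
  · intro e he e' he' hee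
    exact hbij.injOn he.1 he'.1 (Sym2.map.injective (BICS.coord_inj n) hee)
  · rintro e ⟨he, hne⟩
    have h2 := hbij.mapsTo he
    show ∃ p q, (ends e).map (BICS.coord n) = s(p, q) ∧ _
    revert hne h2
    generalize ends e = x
    induction x with
    | _ a b =>
      intro hne h2
      rw [Sym2.mem_iff, not_or] at hne
      rw [SimpleGraph.mem_edgeSet] at h2
      rcases a with _ | ⟨⟨a1, ha1⟩, ⟨a2, ha2⟩⟩
      · exact absurd rfl hne.1
      rcases b with _ | ⟨⟨b1, hb1⟩, ⟨b2, hb2⟩⟩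
      · exact absurd rfl hne.2
      refine ⟨(a1, a2), (b1, b2), rfl, ?_, ?_, ?_⟩
      · rcases h2 with ⟨h3, h4⟩ | ⟨h3, h4⟩
        · left
          exact ⟨congrArg Fin.val h3, h4⟩
        · right
          exact ⟨congrArg Fin.val h3, h4⟩
      · simp only [BICS.rect, mem_ofPred_eq]
        omega
      · simp only [BICS.rect, mem_ofPred_eq]
        omega
  · rintro ⟨p1, p2⟩ ⟨q1, q2⟩ hpq hp hq
    simp only [BICS.rect, mem_ofPred_eq, zero_add, Nat.zero_le, true_and] at hp hq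
    have hadj : (GPlus n).Adj (some (⟨p1, hp.1⟩, ⟨p2, hp.2⟩)) (some (⟨q1, hq.1⟩, ⟨q2, hq.2⟩)) := by
      show gridAdj _ _
      rcases hpq with ⟨h3, h4⟩ | ⟨h3, h4⟩
      · left
        exact ⟨Fin.ext h3, h4⟩
      · right
        exact ⟨Fin.ext h3, h4⟩
    have hmem : s(some (⟨p1, hp.1⟩, ⟨p2, hp.2⟩), some (⟨q1, hq.1⟩, ⟨q2, hq.2⟩)) ∈
        (GPlus n).edgeSet := hadj
    obtain ⟨e, g1, g2⟩ := hbij.surjOn hmem
    refine ⟨e, ⟨g1, ?_⟩, ?_⟩
    · rw [g2, Sym2.mem_iff]
      simp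
    · show (ends e).map (BICS.coord n) = _
      rw [g2]
      rfl

lemma Shows.indep_star (h : Shows N (GPlus n) ends) : N.Indep (star N ends) := by
  have hB := h.bic
  have h2 : ∀ e ∈ star N ends, ∃ v, v ≠ none ∧ ends e = s(none, v) := by
    rintro e ⟨he, hne⟩
    have h3 := h.1.mapsTo he
    obtain ⟨v, hv⟩ := Sym2.mem_iff_exists.1 hne
    refine ⟨v, ?_, hv⟩
    rintro rfl
    rw [hv, SimpleGraph.mem_edgeSet] at h3
    exact h3.ne rfl
  choose! ρ hρ1 hρ2 using h2
  refine hB.ind _ ρ (fun e he => he.1) ?_ ?_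
  · intro e he e' he' hee
    apply h.1.injOn he.1 he'.1
    rw [hρ2 e he, hρ2 e' he', hee]
  · intro e he
    rw [hρ2 e he, Sym2.mem_iff]
    exact Or.inr rfl

lemma Shows.rk_le [N.Finite] (h : Shows N (GPlus n) ends) : rk N N.E ≤ n * n + 1 := by
  have h2 := h.bic.rk univ
  have h3 : ins N.E ends univ = N.E := by
    ext e
    simp [ins]
  rw [h3, Set.encard_univ, ENat.card_eq_coe_fintype_card, Fintype.card_option,
    Fintype.card_prod, Fintype.card_fin, ← cast_rk] at h2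
  exact_mod_cast h2

lemma coord_mem_rect {a b s : ℕ} (ha : a + s ≤ n) (v : Option (Fin n × Fin n)) :
    BICS.coord n v ∈ BICS.rect a b s s ↔ v ∈ sq n a b s := by
  rcases v with _ | ⟨⟨i, hi⟩, ⟨j, hj⟩⟩
  · constructor
    · rintro ⟨_, h, _, _⟩
      simp only [BICS.coord] at h
      omega
    · rintro ⟨i, j, h, _⟩
      exact absurd h (by simp)
  · constructor
    · rintro ⟨h1, h2, h3, h4⟩
      exact ⟨⟨i, hi⟩, ⟨j, hj⟩, rfl, h1, h2, h3, h4⟩
    · rintro ⟨i', j', h, h1, h2, h3, h4⟩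
      simp only [Option.some.injEq, Prod.mk.injEq] at h
      obtain ⟨rfl, rfl⟩ := h
      exact ⟨h1, h2, h3, h4⟩

lemma blk_eq {a b s : ℕ} (ha : a + s ≤ n) :
    BICS.blk (plain N ends) (cends ends) a b s = ins N.E ends (sq n a b s) := by
  ext e
  constructor
  · rintro ⟨⟨h1, _⟩, h3⟩
    refine ⟨h1, fun v hv => (coord_mem_rect ha v).1 ?_⟩
    exact h3 _ (Sym2.mem_map.2 ⟨v, hv, rfl⟩)
  · rintro ⟨h1, h2⟩
    refine ⟨⟨h1, ?_⟩, ?_⟩
    · intro h
      obtain ⟨i, j, h3, _⟩ := h2 _ h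
      exact absurd h3 (by simp)
    · intro v hv
      obtain ⟨w, hw, rfl⟩ := Sym2.mem_map.1 hv
      exact (coord_mem_rect ha w).2 (h2 w hw)

lemma Shows.pgrid [N.Finite] (h : Shows N (GPlus n) ends) {a b s : ℕ} (hs : 2 ≤ s)
    (ha : a + s ≤ n) (hb : b + s ≤ n) : BICS.PGrid N (ins N.E ends (sq n a b s)) s := by
  have h1 : BICS.Grd (ins (plain N ends) (cends ends) (BICS.rect a b s s)) (cends ends) a b s s :=
    BICS.Grd_sub h.grd_plain (BICS.rect_sub (Nat.zero_le _) (by omega) (Nat.zero_le _) (by omega))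
  have h2 := blk_eq (N := N) (ends := ends) (b := b) ha
  unfold BICS.blk at h2
  rw [h2] at h1
  refine BICS.Grd.toPGrid hs ?_ h1
  refine BICS.Bic_sub h.bic_plain ?_
  rw [← h2]
  exact fun e he => he.1

end gplus

end BIC
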