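import Pool.Agent.Helper11.EXT.Low
import Pool.Agent.Helper11.EXT.Inv
import Pool.Agent.Helper34.BIC.Unif

/-!
# Theorem S++ from the plain sparse theorem
-/

open Set
open scoped Matroid

namespace BIC

universe u

/-- What is contracted: the elements that the first minor contracts and the second one does not
delete (outside `Y`), and the elements of the first minor far from its square that the second
minor contracts. -/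
def coreC {α : Type*} (C₁ D₂ F₁ Y : Set α) : Set α := (C₁ \ (D₂ ∪ Y)) ∪ (F₁ \ D₂)

/-- What is deleted. -/
def coreD {α : Type*} (C₁ D₂ F₂ X : Set α) : Set α := (D₂ \ (C₁ ∪ X)) ∪ (F₂ \ C₁)

/-- The plain sparse theorem (helper70's `thmSP`) as a proposition. -/
def SPStmt (k : ℕ) : Prop := ∃ κ₀ : ℕ, ∀ κ₁ : ℕ, ∃ s₀ : ℕ, ∀ s₁ ≥ s₀, ∀ s₂ ≥ s₀,
    ∀ {α : Type u} (M : Matroid α) [M.Finite] (R Q C₁ D₂ : Set α),
    R ⊆ M.E → Q ⊆ M.E → Disjoint R Q → C₁ ⊆ M.E \ R → D₂ ⊆ M.E \ Q →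
    BICS.PGrid (M ／ C₁) R s₁ → BICS.PGrid (M✶ ／ D₂) Q s₂ → KGe M R Q κ₀ → ¬ KGe M R Q (κ₁ + 1) →
    HasUniformMinor M k

lemma PGrid_of_rk {α : Type*} {M N : Matroid α} [M.Finite] [N.Finite] {X : Set α} {s : ℕ}
    (h : BICS.PGrid N X s) (hX : X ⊆ M.E) (hr : ∀ A ⊆ X, rk M A = rk N A) :
    BICS.PGrid M X s := by
  obtain ⟨V, ends, p, hE, vE, h1, h2⟩ := h
  exact ⟨V, ends, p, hE, vE, BICS.Bic_of_rk h1 hX hr, h2⟩

/-- One side of the invariance. -/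
lemma side_inv {α : Type*} {M : Matroid α} [M.Finite] {C₁ D₁ C' D' : Set α} {n a b s : ℕ}
    {e₁ : α → Sym2 (Option (Fin n × Fin n))} (hC₁ : C₁ ⊆ M.E) (hC' : C' ⊆ M.E)
    (hs : 2 ≤ s) (ha : a + s ≤ n) (hb : b + s ≤ n)
    (sh : Shows (M ／ C₁ ＼ D₁) (GPlus n) e₁)
    (hC1D : Disjoint C₁ D')
    (hXC : Disjoint (ins (M ／ C₁ ＼ D₁).E e₁ (sq n a b s)) C')
    (hXD : Disjoint (ins (M ／ C₁ ＼ D₁).E e₁ (sq n a b s)) D')
    (hG : C' \ C₁ ⊆ ins (M ／ C₁ ＼ D₁).E e₁ (sq n a b s)ᶜ) :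
    BICS.PGrid (M ／ C' ＼ D' ／ (C₁ \ C')) (ins (M ／ C₁ ＼ D₁).E e₁ (sq n a b s)) s := by
  have hf1 : (M ／ C' ＼ D' ／ (C₁ \ C')).Finite :=
    ⟨M.ground_finite.subset (sdiff_subset.trans (sdiff_subset.trans sdiff_subset))⟩
  have hf2 : (M ／ C₁ ＼ D₁).Finite := ⟨M.ground_finite.subset (sdiff_subset.trans sdiff_subset)⟩
  have hf3 : (M ／ C₁).Finite := ⟨M.ground_finite.subset sdiff_subset⟩
  have hrk : ∀ A ⊆ (M ／ C₁ ＼ D₁).E, rk (M ／ C₁) A = rk (M ／ C₁ ＼ D₁) A := by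
    intro A hA
    exact (rk_delete (M := M ／ C₁) (D := D₁) hA).symm
  have hB : Bic (M ／ C₁) (M ／ C₁ ＼ D₁).E e₁ :=
    BICS.Bic_of_rk sh.bic (fun e he => he.1) hrk
  have hXE : ins (M ／ C₁ ＼ D₁).E e₁ (sq n a b s) ⊆ (M ／ C₁ ＼ D₁).E := fun e he => he.1
  refine PGrid_of_rk (sh.pgrid hs ha hb) ?_ ?_
  · intro e he
    have hE : e ∈ (M.E \ C₁) \ D₁ := he.1
    exact ⟨⟨⟨hE.1.1, fun h => Set.disjoint_left.1 hXC he h⟩,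
      fun h => Set.disjoint_left.1 hXD he h⟩, fun h => hE.1.2 h.1⟩
  · intro A hA
    rw [inv_rank hC₁ hC' hC1D hXC hXD hB (subset_refl _) hG disjoint_compl_right hA]
    exact hrk A (hA.trans hXE)

/-- **Theorem S++** (from the plain sparse theorem). -/
theorem splus (k : ℕ) (h : SPStmt.{u} k) : ∃ κ₀ : ℕ, ∀ κ₁ : ℕ, ∃ s₀ : ℕ, ∀ n : ℕ,
    ∀ {α : Type u} (M : Matroid α) [M.Finite] (C₁ D₁ C₂ D₂ : Set α),
    C₁ ⊆ M.E → D₁ ⊆ M.E → C₂ ⊆ M.E → D₂ ⊆ M.E → Disjoint C₁ D₁ → Disjoint C₂ D₂ →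
    Disjoint (M ／ C₁ ＼ D₁).E (M ／ C₂ ＼ D₂).E →
    ∀ (e₁ e₂ : α → Sym2 (Option (Fin n × Fin n))),
    Shows (M ／ C₁ ＼ D₁) (GPlus n) e₁ → Shows (M ／ C₂ ＼ D₂)✶ (GPlus n) e₂ →
    KGe M (M ／ C₁ ＼ D₁).E (M ／ C₂ ＼ D₂).E κ₀ →
    ∀ (a₁ b₁ s₁ a₂ b₂ s₂ : ℕ), s₀ ≤ s₁ → s₀ ≤ s₂ → a₁ + s₁ ≤ n → b₁ + s₁ ≤ n → a₂ + s₂ ≤ n →
    b₂ + s₂ ≤ n → ∀ (X F₁ Y F₂ : Set α),
    X = ins (M ／ C₁ ＼ D₁).E e₁ (sq n a₁ b₁ s₁) → F₁ = ins (M ／ C₁ ＼ D₁).E e₁ (sq n a₁ b₁ s₁)ᶜ →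
    Y = ins (M ／ C₂ ＼ D₂).E e₂ (sq n a₂ b₂ s₂) → F₂ = ins (M ／ C₂ ＼ D₂).E e₂ (sq n a₂ b₂ s₂)ᶜ →
    ¬ KGe (M ／ (coreC C₁ D₂ F₁ Y) ＼ (coreD C₁ D₂ F₂ X)) X Y (κ₁ + 1) →
    HasUniformMinor M k := by
  classical
  obtain ⟨κ', H⟩ := h
  obtain ⟨g, t₀, G⟩ := kge_squares.{u}
  refine ⟨κ' + 2 * g κ' + 1, ?_⟩
  intro κ₁
  obtain ⟨r₀, H⟩ := H (max κ₁ (κ' + 1))
  refine ⟨max 2 (max r₀ (t₀ κ')), ?_⟩
  intro n α M _ C₁ D₁ C₂ D₂ hC₁ hD₁ hC₂ hD₂ h1 h2 hdis e₁ e₂ sh₁ sh₂ hK a₁ b₁ s₁ a₂ b₂ s₂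
    hs₁ hs₂ ha₁ hb₁ ha₂ hb₂ X F₁ Y F₂ hX hF₁ hY hF₂ hcold
  have hs2 : ∀ {s : ℕ}, max 2 (max r₀ (t₀ κ')) ≤ s → 2 ≤ s := fun hs => (le_max_left _ _).trans hs
  have hs1 : ∀ {s : ℕ}, max 2 (max r₀ (t₀ κ')) ≤ s → r₀ ≤ s :=
    fun hs => (le_max_left _ _).trans ((le_max_right _ _).trans hs)
  have hst : ∀ {s : ℕ}, max 2 (max r₀ (t₀ κ')) ≤ s → t₀ κ' ≤ s :=
    fun hs => (le_max_right _ _).trans ((le_max_right _ _).trans hs)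
  have hlow : KGe M X Y (κ' + 1) := by
    rw [hX, hY]
    exact G κ' M C₁ D₁ C₂ D₂ n a₁ b₁ s₁ a₂ b₂ s₂ e₁ e₂ hC₁ h1 hD₂ h2
      ((hs2 hs₁).trans (by omega)) (hst hs₁) (hst hs₂) ha₁ hb₁ ha₂ hb₂ sh₁ sh₂ hdis hK
  -- elementary facts
  have X1 : X ⊆ (M ／ C₁ ＼ D₁).E := by rw [hX]; exact fun e he => he.1
  have F1 : F₁ ⊆ (M ／ C₁ ＼ D₁).E := by rw [hF₁]; exact fun e he => he.1
  have Y1 : Y ⊆ (M ／ C₂ ＼ D₂).E := by rw [hY]; exact fun e he => he.1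
  have F2 : F₂ ⊆ (M ／ C₂ ＼ D₂).E := by rw [hF₂]; exact fun e he => he.1
  have nXF : ∀ e ∈ X, e ∉ F₁ := by
    intro e he he'
    rw [hX] at he
    rw [hF₁] at he'
    obtain ⟨v, hv⟩ := exists_mem_ends e₁ e
    exact he'.2 v hv (he.2 v hv)
  have nYF : ∀ e ∈ Y, e ∉ F₂ := by
    intro e he he'
    rw [hY] at he
    rw [hF₂] at he'
    obtain ⟨v, hv⟩ := exists_mem_ends e₂ e
    exact he'.2 v hv (he.2 v hv)
  have n12 : ∀ e ∈ (M ／ C₁ ＼ D₁).E, e ∉ (M ／ C₂ ＼ D₂).E :=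
    fun e he h => Set.disjoint_left.1 hdis he h
  have E1 : ∀ e ∈ (M ／ C₁ ＼ D₁).E, e ∈ M.E ∧ e ∉ C₁ ∧ e ∉ D₁ :=
    fun e he => ⟨he.1.1, he.1.2, he.2⟩
  have E2 : ∀ e ∈ (M ／ C₂ ＼ D₂).E, e ∈ M.E ∧ e ∉ C₂ ∧ e ∉ D₂ :=
    fun e he => ⟨he.1.1, he.1.2, he.2⟩
  have hcc : coreC C₁ D₂ F₁ Y ⊆ M.E := by
    rintro e (he | he)
    · exact hC₁ he.1
    · exact (E1 e (F1 he.1)).1
  have hcd : coreD C₁ D₂ F₂ X ⊆ M.E := by
    rintro e (he | he)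
    · exact hD₂ he.1
    · exact (E2 e (F2 he.1)).1
  have hCD : Disjoint (coreC C₁ D₂ F₁ Y) (coreD C₁ D₂ F₂ X) := by
    rw [Set.disjoint_left]
    rintro e (he | he) (he' | he')
    · exact he.2 (Or.inl he'.1)
    · exact he'.2 he.1
    · exact he.2 he'.1
    · exact n12 e (F1 he.1) (F2 he'.1)
  obtain ⟨C', hC', D', hD', k1, k2⟩ := cont_roles hcc hcd hCD (le_max_right κ₁ (κ' + 1)) hlow
    (fun hh => hcold (hh.mono_n (by omega)))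
  have hdCD : Disjoint C' D' := hCD.mono hC' hD'
  have hf : (M ／ C' ＼ D').Finite := ⟨M.ground_finite.subset (sdiff_subset.trans sdiff_subset)⟩
  -- disjointness facts
  have XC : Disjoint X C' := by
    rw [Set.disjoint_left]
    intro e he he'
    rcases hC' he' with h | h
    · exact (E1 e (X1 he)).2.1 h.1
    · exact nXF e he h.1
  have XD : Disjoint X D' := by
    rw [Set.disjoint_left]
    intro e he he'
    rcases hD' he' with h | h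
    · exact h.2 (Or.inr he)
    · exact n12 e (X1 he) (F2 h.1)
  have YC : Disjoint Y C' := by
    rw [Set.disjoint_left]
    intro e he he'
    rcases hC' he' with h | h
    · exact h.2 (Or.inr he)
    · exact n12 e (F1 h.1) (Y1 he)
  have YD : Disjoint Y D' := by
    rw [Set.disjoint_left]
    intro e he he'
    rcases hD' he' with h | h
    · exact (E2 e (Y1 he)).2.2 h.1
    · exact nYF e he h.1
  have C1D : Disjoint C₁ D' := by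
    rw [Set.disjoint_left]
    intro e he he'
    rcases hD' he' with h | h
    · exact h.2 (Or.inl he)
    · exact h.2 he
  have D2C : Disjoint D₂ C' := by
    rw [Set.disjoint_left]
    intro e he he'
    rcases hC' he' with h | h
    · exact h.2 (Or.inl he)
    · exact h.2 he
  have G1 : C' \ C₁ ⊆ F₁ := by
    rintro e ⟨he, he'⟩
    rcases hC' he with h | h
    · exact absurd h.1 he'
    · exact h.1
  have G2 : D' \ D₂ ⊆ F₂ := by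
    rintro e ⟨he, he'⟩
    rcases hD' he with h | h
    · exact absurd h.1 he'
    · exact h.1
  -- side 1
  have P1 : BICS.PGrid (M ／ C' ＼ D' ／ (C₁ \ C')) X s₁ := by
    rw [hX]
    rw [hX] at XC XD
    rw [hF₁] at G1
    exact side_inv hC₁ (hC'.trans hcc) (hs2 hs₁) ha₁ hb₁ sh₁ C1D XC XD G1
  -- side 2
  have hdual : (M ／ C₂ ＼ D₂)✶ = M✶ ／ D₂ ＼ C₂ := by
    rw [Matroid.dual_delete, Matroid.dual_contract, Matroid.contract_delete_comm _ h2.symm]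
  have hdual' : (M ／ C' ＼ D')✶ = M✶ ／ D' ＼ C' := by
    rw [Matroid.dual_delete, Matroid.dual_contract, Matroid.contract_delete_comm _ hdCD.symm]
  have hE2 : (M ／ C₂ ＼ D₂).E = (M✶ ／ D₂ ＼ C₂).E := by
    rw [← hdual]; rfl
  have P2 : BICS.PGrid ((M ／ C' ＼ D')✶ ／ (D₂ \ D')) Y s₂ := by
    rw [hdual', hY, hE2]
    rw [hY, hE2] at YC YD
    rw [hF₂, hE2] at G2
    rw [hdual] at sh₂
    exact side_inv (M := M✶) (C₁ := D₂) (D₁ := C₂) (C' := D') (D' := C') hD₂ (hD'.trans hcd) (hs2 hs₂)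
      ha₂ hb₂ sh₂ D2C YD YC G2
  obtain ⟨N, g1, g2, g3⟩ := H s₁ (hs1 hs₁) s₂ (hs1 hs₂) (M ／ C' ＼ D') X Y (C₁ \ C') (D₂ \ D')
    (fun e he => ⟨⟨(E1 e (X1 he)).1, fun h => Set.disjoint_left.1 XC he h⟩,
      fun h => Set.disjoint_left.1 XD he h⟩)
    (fun e he => ⟨⟨(E2 e (Y1 he)).1, fun h => Set.disjoint_left.1 YC he h⟩,
      fun h => Set.disjoint_left.1 YD he h⟩)
    (hdis.mono X1 Y1)
    (fun e he => ⟨⟨⟨hC₁ he.1, he.2⟩, fun h => Set.disjoint_left.1 C1D he.1 h⟩,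
      fun h => (E1 e (X1 h)).2.1 he.1⟩)
    (fun e he => ⟨⟨⟨hD₂ he.1, fun h => Set.disjoint_left.1 D2C he.1 h⟩, he.2⟩,
      fun h => (E2 e (Y1 h)).2.2 he.1⟩)
    P1 P2 (k1.mono_n (by omega)) k2
  exact ⟨N, g1.trans (Matroid.contract_delete_isMinor _ _ _), g2, g3⟩

end BIC
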